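import Pool.Agent.H20.PW.Stp
import Pool.Agent.H61.PO.FinB

/-!
# PW-07 finiteness; removing finitely many discs

* `fin_one`: `fin_disc` (file PO/FinB.lean): `data : (M → M → ZMod 2) → Fin N`; the map `Hc A → Fin N`, `x ↦ data (x.out).1` (a representative: `Quotient.out`/`Submodule.Quotient.mk_surjective` and `Function.surjInv`) is
  injective: equal data give `Cob A (g + g')`, `g - g' = g + g'` in characteristic 2 (`Submodule.Quotient.eq`).  So `Hc A` is a finite type (`Finite.of_injective`) and a finite module (`Module.Finite.of_finite` or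
  `inferInstance`).  `A = (e '' ball 0 1)ᶜ`.
* `cut_all`: induction on the finset `J` (`a ∉ J` fixed).  `J = ∅`: `fin_one`.  Step `insert b J`: `A = (e a '' ball 0 1 ∪ ⋃ i ∈ J, e i '' ball 0 1)ᶜ` is closed, `e b '' closedBall 0 1 ⊆ A` by `hd`,
  `A \ e b '' ball 0 1 = (e a '' ball 0 1 ∪ ⋃ i ∈ insert b J, ...)ᶜ`; `cut_one`; `Finset.card_insert_of_notMem`.
-/

namespace Pool.Agent.H20.PW

open Set Filter Topology Metric Pool.Agent.H61.PO

variable {M : Type*} [MetricSpace M] [CompactSpace M]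

theorem fin_one (hM : Surf M) {e : ℂ → M} (he : IsOpenEmbedding e) :
    Module.Finite (ZMod 2) (Hc (e '' ball 0 1)ᶜ) := by
  obtain ⟨N, hN⟩ := fin_disc hM
  obtain ⟨data, hd⟩ := hN e he
  obtain ⟨q, hq⟩ := (Submodule.Quotient.mk_surjective
    ((Bc (e '' ball 0 1)ᶜ).comap (Zc (e '' ball 0 1)ᶜ).subtype)).hasRightInverse
  have hinj : Function.Injective (fun x : Hc (e '' ball 0 1)ᶜ => data (q x).1) := by
    intro x y hxy
    have h1 : Cob (e '' ball 0 1)ᶜ ((q x).1 + (q y).1) :=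
      hd (q x).1 (q y).1 (q x).2 (q y).2 hxy
    rw [← hq x, ← hq y, Submodule.Quotient.eq, Submodule.mem_comap]
    have h2 : (Zc (e '' ball 0 1)ᶜ).subtype (q x - q y) = (q x).1 + (q y).1 := by
      rw [Submodule.subtype_apply, Submodule.coe_sub]
      funext a b
      rw [Pi.sub_apply, Pi.sub_apply, Pi.add_apply, Pi.add_apply]
      exact CharTwo.sub_eq_add _ _
    rw [h2]
    exact h1
  have hf : Finite (Hc (e '' ball 0 1)ᶜ) := Finite.of_injective _ hinj
  exact Module.Finite.of_finite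

theorem cut_all (hM : Surf M) {I : Type*} {e : I → ℂ → M} (a : I) (J : Finset I) (ha : a ∉ J)
    (he : ∀ i, i = a ∨ i ∈ J → IsOpenEmbedding (e i))
    (hd : ∀ i j, (i = a ∨ i ∈ J) → (j = a ∨ j ∈ J) → i ≠ j →
      Disjoint (e i '' closedBall 0 1) (e j '' closedBall 0 1)) :
    Module.Finite (ZMod 2) (Hc (e a '' ball 0 1 ∪ ⋃ i ∈ J, e i '' ball 0 1)ᶜ) ∧
      h1 (e a '' ball 0 1 ∪ ⋃ i ∈ J, e i '' ball 0 1)ᶜ ≤ h1 (e a '' ball 0 1)ᶜ + J.card := by
  classical
  induction J using Finset.induction_on with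
  | empty =>
    have h0 : (e a '' ball 0 1 ∪ ⋃ i ∈ (∅ : Finset I), e i '' ball 0 1) = e a '' ball 0 1 := by
      simp
    rw [h0]
    exact ⟨fin_one hM (he a (Or.inl rfl)), by simp⟩
  | insert b J hb ih =>
    have hab : a ≠ b := fun h => ha (by rw [h]; exact Finset.mem_insert_self _ _)
    have haJ : a ∉ J := fun h => ha (Finset.mem_insert_of_mem h)
    have hmem : ∀ i, i = a ∨ i ∈ J → i = a ∨ i ∈ insert b J := fun i hi =>
      hi.imp id (fun h => Finset.mem_insert_of_mem h)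
    obtain ⟨ih1, ih2⟩ := ih haJ (fun i hi => he i (hmem i hi))
      (fun i j hi hj hij => hd i j (hmem i hi) (hmem j hj) hij)
    have hbm : b = a ∨ b ∈ insert b J := Or.inr (Finset.mem_insert_self _ _)
    have hsub : ball (0 : ℂ) 1 ⊆ closedBall 0 1 := ball_subset_closedBall
    have hcl : IsClosed (e a '' ball 0 1 ∪ ⋃ i ∈ J, e i '' ball 0 1)ᶜ := by
      rw [isClosed_compl_iff]
      refine IsOpen.union ((he a (Or.inl rfl)).isOpenMap _ isOpen_ball) ?_
      refine isOpen_biUnion fun i hi => ?_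
      exact (he i (hmem i (Or.inr hi))).isOpenMap _ isOpen_ball
    have hD : e b '' closedBall 0 1 ⊆ (e a '' ball 0 1 ∪ ⋃ i ∈ J, e i '' ball 0 1)ᶜ := by
      intro x hx hx2
      rcases hx2 with hx2 | hx2
      · exact Set.disjoint_left.1 (hd b a hbm (Or.inl rfl) (Ne.symm hab)) hx
          (Set.image_mono hsub hx2)
      · rw [Set.mem_iUnion₂] at hx2
        obtain ⟨i, hi, hx3⟩ := hx2
        have hbi : b ≠ i := fun h => hb (by rw [h]; exact hi)
        exact Set.disjoint_left.1 (hd b i hbm (hmem i (Or.inr hi)) hbi) hx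
          (Set.image_mono hsub hx3)
    have hset : (e a '' ball 0 1 ∪ ⋃ i ∈ insert b J, e i '' ball 0 1)ᶜ =
        (e a '' ball 0 1 ∪ ⋃ i ∈ J, e i '' ball 0 1)ᶜ \ e b '' ball 0 1 := by
      rw [Finset.set_biUnion_insert]
      ext x
      simp only [Set.mem_compl_iff, Set.mem_union, Set.mem_sdiff]
      tauto
    obtain ⟨h3, h4⟩ := cut_one hcl (he b hbm) hD ih1
    rw [hset, Finset.card_insert_of_notMem hb]
    exact ⟨h3, by omega⟩

end Pool.Agent.H20.PW
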