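import Pool.Agent.H61.PO.Triv
import Pool.Agent.H61.PO.Glue

/-!
# Pohl's problem Q2 (MP_beb0a3_gt), part W, helper20: the class of an arc with a normalised primitive

(Variant of `cross_class`, file `H61/PO/Circ.lean`, with the same proof.)
-/

namespace Pool.Agent.H20.PW

open Set Filter Topology Pool.Agent.H61.PO

variable {X : Type*} [TopologicalSpace X] [T2Space X]

/-- images of subintervals are closed, and complements are neighbourhoods -/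
private theorem PW_circ_nhds {α : ℝ → X} (hc : ContinuousOn α (Icc 0 1)) (hi : InjOn α (Icc 0 1))
    {u c d : ℝ} (hu : u ∈ Icc (0 : ℝ) 1) (hc0 : 0 ≤ c) (hd1 : d ≤ 1) (hn : u ∉ Icc c d) :
    (α '' Icc c d)ᶜ ∈ 𝓝 (α u) := by
  have hsub : Icc c d ⊆ Icc (0 : ℝ) 1 := Icc_subset_Icc hc0 hd1
  have hcl : IsClosed (α '' Icc c d) := (isCompact_Icc.image_of_continuousOn (hc.mono hsub)).isClosed
  refine hcl.isOpen_compl.mem_nhds ?_
  rintro ⟨v, hv, hvu⟩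
  exact hn (hi (hsub hv) hu hvu ▸ hv)

omit [TopologicalSpace X] [T2Space X] in
private theorem PW_circ_mem {α : ℝ → X} (hi : InjOn α (Icc 0 1)) {u c d : ℝ} (hu : u ∈ Icc (0 : ℝ) 1)
    (hc0 : 0 ≤ c) (hd1 : d ≤ 1) (h : α u ∈ α '' Icc c d) : u ∈ Icc c d := by
  have hsub : Icc c d ⊆ Icc (0 : ℝ) 1 := Icc_subset_Icc hc0 hd1
  obtain ⟨v, hv, hvu⟩ := h
  exact hi (hsub hv) hu hvu ▸ hv

private theorem PW_circ_z (a b c : ZMod 2) : (a + b) + (b + c) = a + c := by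
  revert a b c; decide

private theorem PW_circ_local {A σ : Set X} {p q : X} {α : ℝ → X} (hA : IsClosed A)
    (hc : ContinuousOn α (Icc 0 1)) (hi : InjOn α (Icc 0 1)) (hσ : σ = α '' Icc 0 1)
    (h0 : α 0 = p) (h1 : α 1 = q) (hAσ : A ∩ σ = {p, q}) (t : X → ZMod 2)
    (ht0 : ∀ u ∈ Icc (0 : ℝ) 1, u < 1 / 2 → t (α u) = 0)
    (ht1 : ∀ u ∈ Icc (0 : ℝ) 1, 1 / 2 ≤ u → t (α u) = 1)
    (g : X → X → ZMod 2) (hg1 : ∀ a ∈ α '' Icc (1 / 4) (3 / 4), ∀ b ∈ α '' Icc (1 / 4) (3 / 4),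
      g a b = t a + t b)
    (hg0 : ∀ a b, a ∉ α '' Icc (1 / 4) (3 / 4) ∨ b ∉ α '' Icc (1 / 4) (3 / 4) → g a b = 0) :
    Coc (A ∪ σ) g ∧ LCob A g (fun _ => 0) ∧ LCob σ g t := by
  have hMc : IsClosed (α '' Icc (1 / 4) (3 / 4)) :=
    (isCompact_Icc.image_of_continuousOn
      (hc.mono (Icc_subset_Icc (by norm_num) (by norm_num)))).isClosed
  have hMA : ∀ u ∈ Ioo (0 : ℝ) 1, α u ∉ A := by
    intro u hu huA
    have hmem : α u ∈ A ∩ σ := ⟨huA, hσ ▸ ⟨u, ⟨hu.1.le, hu.2.le⟩, rfl⟩⟩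
    rw [hAσ] at hmem
    rcases hmem with h | h
    · rw [← h0] at h
      have := hi ⟨hu.1.le, hu.2.le⟩ ⟨le_refl _, zero_le_one⟩ h
      exact absurd this (ne_of_gt hu.1)
    · have h' : α u = α 1 := by rw [h1]; exact h
      have := hi ⟨hu.1.le, hu.2.le⟩ ⟨zero_le_one, le_refl _⟩ h'
      exact absurd this (ne_of_lt hu.2)
  -- local structure at the points of `σ`
  have key : ∀ u ∈ Icc (0 : ℝ) 1, u < 1 / 2 → ∃ U ∈ 𝓝 (α u), (∀ a ∈ U, ∀ b ∈ U, g a b = 0) ∧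
      ∀ a ∈ U ∩ σ, t a = 0 := by
    intro u hu hlt
    refine ⟨_, PW_circ_nhds hc hi hu (c := 1 / 2) (d := 1) (by norm_num) le_rfl
      (fun h => absurd h.1 (not_le.2 hlt)), ?_, ?_⟩
    · intro a ha b hb
      by_cases hab : a ∈ α '' Icc (1 / 4) (3 / 4) ∧ b ∈ α '' Icc (1 / 4) (3 / 4)
      · have hz : ∀ a ∈ (α '' Icc (1 / 2) 1)ᶜ, a ∈ α '' Icc (1 / 4) (3 / 4) → t a = 0 := by
          rintro _ ha ⟨v, hv, rfl⟩
          have hv' : v < 1 / 2 := by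
            by_contra hcon
            exact ha ⟨v, ⟨not_lt.1 hcon, hv.2.trans (by norm_num)⟩, rfl⟩
          exact ht0 v ⟨le_trans (by norm_num) hv.1, hv.2.trans (by norm_num)⟩ hv'
        rw [hg1 a hab.1 b hab.2, hz a ha hab.1, hz b hb hab.2, add_zero]
      · exact hg0 a b (not_and_or.1 hab)
    · rintro a ⟨ha, haσ⟩
      rw [hσ] at haσ
      obtain ⟨v, hv, rfl⟩ := haσ
      have hv' : v < 1 / 2 := by
        by_contra hcon
        exact ha ⟨v, ⟨not_lt.1 hcon, hv.2⟩, rfl⟩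
      exact ht0 v hv hv'
  have key2 : ∀ u ∈ Icc (0 : ℝ) 1, 1 / 2 < u → ∃ U ∈ 𝓝 (α u), (∀ a ∈ U, ∀ b ∈ U, g a b = 0) ∧
      ∀ a ∈ U ∩ σ, t a = 1 := by
    intro u hu hlt
    refine ⟨_, PW_circ_nhds hc hi hu (c := 0) (d := 1 / 2) le_rfl (by norm_num)
      (fun h => absurd h.2 (not_le.2 hlt)), ?_, ?_⟩
    · intro a ha b hb
      by_cases hab : a ∈ α '' Icc (1 / 4) (3 / 4) ∧ b ∈ α '' Icc (1 / 4) (3 / 4)
      · have hz : ∀ a ∈ (α '' Icc 0 (1 / 2))ᶜ, a ∈ α '' Icc (1 / 4) (3 / 4) → t a = 1 := by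
          rintro _ ha ⟨v, hv, rfl⟩
          have hv' : 1 / 2 ≤ v := by
            by_contra hcon
            exact ha ⟨v, ⟨le_trans (by norm_num) hv.1, (not_le.1 hcon).le⟩, rfl⟩
          exact ht1 v ⟨le_trans (by norm_num) hv.1, hv.2.trans (by norm_num)⟩ hv'
        rw [hg1 a hab.1 b hab.2, hz a ha hab.1, hz b hb hab.2]
        decide
      · exact hg0 a b (not_and_or.1 hab)
    · rintro a ⟨ha, haσ⟩
      rw [hσ] at haσ
      obtain ⟨v, hv, rfl⟩ := haσ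
      have hv' : 1 / 2 ≤ v := by
        by_contra hcon
        exact ha ⟨v, ⟨hv.1, (not_le.1 hcon).le⟩, rfl⟩
      exact ht1 v hv hv'
  have key3 : ∃ U ∈ 𝓝 (α (1 / 2)), ∀ a ∈ U ∩ (A ∪ σ), a ∈ α '' Icc (1 / 4) (3 / 4) := by
    have e1 : (α '' Icc 0 (1 / 4))ᶜ ∈ 𝓝 (α (1 / 2)) :=
      PW_circ_nhds hc hi ⟨by norm_num, by norm_num⟩ le_rfl (by norm_num)
        (fun h => absurd h.2 (by norm_num))
    have e2 : (α '' Icc (3 / 4) 1)ᶜ ∈ 𝓝 (α (1 / 2)) :=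
      PW_circ_nhds hc hi ⟨by norm_num, by norm_num⟩ (by norm_num) le_rfl
        (fun h => absurd h.1 (by norm_num))
    have e3 : Aᶜ ∈ 𝓝 (α (1 / 2)) :=
      hA.isOpen_compl.mem_nhds (hMA (1 / 2) ⟨by norm_num, by norm_num⟩)
    refine ⟨_, inter_mem (inter_mem e1 e2) e3, ?_⟩
    rintro a ⟨⟨⟨h1', h2'⟩, h3'⟩, haA | haσ⟩
    · exact absurd haA h3'
    · rw [hσ] at haσ
      obtain ⟨v, hv, rfl⟩ := haσ
      refine ⟨v, ⟨?_, ?_⟩, rfl⟩
      · by_contra hcon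
        exact h1' ⟨v, ⟨hv.1, (not_le.1 hcon).le⟩, rfl⟩
      · by_contra hcon
        exact h2' ⟨v, ⟨(not_le.1 hcon).le, hv.2⟩, rfl⟩
  have hAcob : LCob A g (fun _ => 0) := by
    intro x hx
    refine ⟨(α '' Icc (1 / 4) (3 / 4))ᶜ, hMc.isOpen_compl.mem_nhds ?_, ?_⟩
    · rintro ⟨v, hv, rfl⟩
      exact hMA v ⟨lt_of_lt_of_le (by norm_num) hv.1, lt_of_le_of_lt hv.2 (by norm_num)⟩ hx
    · rintro a ⟨ha, -⟩ b -
      rw [hg0 a b (Or.inl ha), add_zero]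
  have hσcob : LCob σ g t := by
    intro x hx
    rw [hσ] at hx
    obtain ⟨u, hu, rfl⟩ := hx
    rcases lt_trichotomy u (1 / 2) with hlt | heq | hgt
    · obtain ⟨U, hU, hU1, hU2⟩ := key u hu hlt
      refine ⟨U, hU, fun a ha b hb => ?_⟩
      rw [hU1 a ha.1 b hb.1, hU2 a ha, hU2 b hb, add_zero]
    · subst heq
      obtain ⟨U, hU, hU1⟩ := key3
      refine ⟨U, hU, fun a ha b hb => ?_⟩
      exact hg1 a (hU1 a ⟨ha.1, Or.inr ha.2⟩) b (hU1 b ⟨hb.1, Or.inr hb.2⟩)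
    · obtain ⟨U, hU, hU1, hU2⟩ := key2 u hu hgt
      refine ⟨U, hU, fun a ha b hb => ?_⟩
      rw [hU1 a ha.1 b hb.1, hU2 a ha, hU2 b hb]
      decide
  refine ⟨?_, hAcob, hσcob⟩
  intro x hx
  by_cases hxM : x ∈ α '' Icc (1 / 4) (3 / 4)
  · obtain ⟨u, hu, rfl⟩ := hxM
    have hu' : u ∈ Icc (0 : ℝ) 1 := ⟨le_trans (by norm_num) hu.1, hu.2.trans (by norm_num)⟩
    rcases lt_trichotomy u (1 / 2) with hlt | heq | hgt
    · obtain ⟨U, hU, hU1, -⟩ := key u hu' hlt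
      refine ⟨U, hU, fun a ha b hb c hc => ?_⟩
      rw [hU1 a ha.1 b hb.1, hU1 b hb.1 c hc.1, hU1 a ha.1 c hc.1, add_zero]
    · subst heq
      obtain ⟨U, hU, hU1⟩ := key3
      refine ⟨U, hU, fun a ha b hb c hc => ?_⟩
      rw [hg1 a (hU1 a ha) b (hU1 b hb), hg1 b (hU1 b hb) c (hU1 c hc),
        hg1 a (hU1 a ha) c (hU1 c hc)]
      exact PW_circ_z _ _ _
    · obtain ⟨U, hU, hU1, -⟩ := key2 u hu' hgt
      refine ⟨U, hU, fun a ha b hb c hc => ?_⟩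
      rw [hU1 a ha.1 b hb.1, hU1 b hb.1 c hc.1, hU1 a ha.1 c hc.1, add_zero]
  · refine ⟨(α '' Icc (1 / 4) (3 / 4))ᶜ, hMc.isOpen_compl.mem_nhds hxM, ?_⟩
    rintro a ⟨ha, -⟩ b ⟨hb, -⟩ c -
    rw [hg0 a b (Or.inl ha), hg0 b c (Or.inl hb), hg0 a c (Or.inl ha), add_zero]

/-- `σ` an arc which meets the closed set `A` in its ends only: a local cocycle which is zero near `A` and has on
`σ` a primitive with the values `0`, `1` at the ends -/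
theorem arc_class {A σ : Set X} {p q : X} (hA : IsClosed A) (hσ : IsArc σ p q)
    (hAσ : A ∩ σ = {p, q}) : ∃ (g : X → X → ZMod 2) (t : X → ZMod 2), Coc (A ∪ σ) g ∧
      LCob A g (fun _ => 0) ∧ LCob σ g t ∧ t p = 0 ∧ t q = 1 := by
  classical
  obtain ⟨α, hc, hi, hσe, h0, h1⟩ := hσ
  let t : X → ZMod 2 := fun x => if x ∈ α '' Icc (1 / 2) 1 then 1 else 0
  let g : X → X → ZMod 2 := fun a b =>
    if a ∈ α '' Icc (1 / 4) (3 / 4) ∧ b ∈ α '' Icc (1 / 4) (3 / 4) then t a + t b else 0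
  have ht0 : ∀ u ∈ Icc (0 : ℝ) 1, u < 1 / 2 → t (α u) = 0 := by
    intro u hu hlt
    refine if_neg ?_
    intro h
    exact absurd (PW_circ_mem hi hu (by norm_num) le_rfl h).1 (not_le.2 hlt)
  have ht1 : ∀ u ∈ Icc (0 : ℝ) 1, 1 / 2 ≤ u → t (α u) = 1 :=
    fun u hu hle => if_pos ⟨u, ⟨hle, hu.2⟩, rfl⟩
  obtain ⟨H1, H2, H3⟩ := PW_circ_local hA hc hi hσe h0 h1 hAσ t ht0 ht1 g
    (fun a ha b hb => if_pos ⟨ha, hb⟩)
    (fun a b h => if_neg (fun h' => h.elim (fun h => h h'.1) (fun h => h h'.2)))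
  refine ⟨g, t, H1, H2, H3, ?_, ?_⟩
  · rw [← h0]
    exact ht0 0 ⟨le_rfl, zero_le_one⟩ (by norm_num)
  · rw [← h1]
    exact ht1 1 ⟨zero_le_one, le_rfl⟩ (by norm_num)

end Pool.Agent.H20.PW
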