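import Pool.Agent.H20.PW.Hol
import Pool.Agent.H61.PO.Discs
import Pool.Agent.H61.PO.Circ
import Pool.Agent.H61.PO.LocalB

/-!
# PW-04 the components of the complement of a graph: first properties; discs

* `disc_in`: `x ∈ W`, `Surf`: `e : ℂ → M` open embedding with `range e ⊆ W` (`hM x W (hW.mem_nhds hx)`); `e '' closedBall 0 1 ⊆ range e`.
* `comp_sub`, `comp_ne`, `comp_preconn`: `connectedComponentIn_subset`, `mem_connectedComponentIn`, `isPreconnected_connectedComponentIn`.
* `comp_disj`: two components with a common point are equal (`connectedComponentIn_eq`).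
* `comp_cover`: a point `w ∉ Γ.set` is in `connectedComponentIn Γ.setᶜ w ∈ Γ.comps`.
* `comp_op`: `comp_isOpen` (file PO/LocalB.lean), `gset_closed`.
* `gset_ne`: suppose `Γ.set = univ`.  `M = ⋃ i, Γ.σ i` is a finite union of closed sets (`IsArc.compact`), `M` is a Baire space (compact Hausdorff: instance), so some `Γ.σ i` has nonempty interior
  (`nonempty_interior_of_iUnion_of_closed`).  `disc_in`: `e : ℂ → M` with `e '' sphere 0 1 ⊆ e '' closedBall 0 1 ⊆ interior (Γ.σ i) ⊆ Γ.σ i = α '' [0,1]`.  `S = e '' sphere 0 1` is a simple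
  closed curve (`scc_sphere one_pos`, `SCC.image`), compact.  `S = α '' C` with `C = {u ∈ [0,1] : α u ∈ S}` compact (`ContinuousOn.preimage_isClosed_of_isClosed`), so `Triv S` by `triv_real` and
  `Triv.image` (file PO/Homot.lean; you may import it).  Contradiction to `SCC.class` (file PO/Circ.lean).
* `comps_ne`: from `gset_ne` and `comp_cover`.
-/

namespace Pool.Agent.H20.PW

open Set Filter Topology Metric Pool.Agent.H61.PO

variable {M : Type*} [TopologicalSpace M] (Γ : Gr M) {W W' : Set M}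

theorem disc_in (hM : Surf M) (hW : IsOpen W) (hn : W.Nonempty) :
    ∃ e : ℂ → M, IsOpenEmbedding e ∧ e '' closedBall 0 1 ⊆ W := by
  obtain ⟨x, hx⟩ := hn
  obtain ⟨e, he, -, hr⟩ := hM x W (hW.mem_nhds hx)
  exact ⟨e, he, (image_subset_range _ _).trans hr⟩

theorem comp_sub (hW : W ∈ Γ.comps) : W ⊆ Γ.setᶜ := by
  obtain ⟨w, hw, rfl⟩ := hW
  exact connectedComponentIn_subset _ _

theorem comp_ne (hW : W ∈ Γ.comps) : W.Nonempty := by
  obtain ⟨w, hw, rfl⟩ := hW
  exact ⟨w, mem_connectedComponentIn hw⟩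

theorem comp_preconn (hW : W ∈ Γ.comps) : IsPreconnected W := by
  obtain ⟨w, hw, rfl⟩ := hW
  exact isPreconnected_connectedComponentIn

theorem comp_disj (hW : W ∈ Γ.comps) (hW' : W' ∈ Γ.comps) (h : W ≠ W') : Disjoint W W' := by
  obtain ⟨w, hw, rfl⟩ := hW
  obtain ⟨w', hw', rfl⟩ := hW'
  rw [Set.disjoint_left]
  intro x h1 h2
  exact h (by rw [connectedComponentIn_eq h1, connectedComponentIn_eq h2])

theorem comp_cover {x : M} (hx : x ∉ Γ.set) : ∃ W ∈ Γ.comps, x ∈ W :=
  ⟨_, ⟨x, hx, rfl⟩, mem_connectedComponentIn hx⟩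

theorem comp_op [T2Space M] (hM : Surf M) (hW : W ∈ Γ.comps) : IsOpen W := by
  obtain ⟨w, hw, rfl⟩ := hW
  have := hM.locallyConnected
  exact (gset_closed Γ).isOpen_compl.connectedComponentIn

theorem gset_ne [T2Space M] [CompactSpace M] [Nonempty M] (hM : Surf M) : Γ.set ≠ univ := by
  intro hu
  have hfin := Γ.fι
  have hc : ∀ i, IsClosed (Γ.σ i) := fun i => (Γ.arc i).compact.isClosed
  obtain ⟨i, hi⟩ := nonempty_interior_of_iUnion_of_closed hc hu
  obtain ⟨e, he, hes⟩ := disc_in hM isOpen_interior hi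
  obtain ⟨α, h1, h2, h3, -, -⟩ := Γ.arc i
  obtain ⟨S, hS⟩ : ∃ S : Set M, S = e '' sphere (0 : ℂ) 1 := ⟨_, rfl⟩
  have hSα : S ⊆ α '' Icc 0 1 := by
    rw [hS, ← h3]
    exact ((image_mono sphere_subset_closedBall).trans hes).trans interior_subset
  have hSCC : SCC S := by
    rw [hS]
    exact (scc_sphere one_pos).image he.continuous.continuousOn he.injective.injOn
  have hSc : IsCompact S := by
    rw [hS]
    exact (isCompact_sphere (0 : ℂ) 1).image he.continuous
  have hC : IsCompact (Icc (0 : ℝ) 1 ∩ α ⁻¹' S) :=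
    isCompact_Icc.of_isClosed_subset
      (h1.preimage_isClosed_of_isClosed isClosed_Icc hSc.isClosed) inter_subset_left
  have hCS : α '' (Icc (0 : ℝ) 1 ∩ α ⁻¹' S) = S := by
    apply Subset.antisymm
    · rintro _ ⟨u, ⟨-, hu'⟩, rfl⟩
      exact hu'
    · intro x hx
      obtain ⟨u, hu', rfl⟩ := hSα hx
      exact ⟨u, ⟨hu', hx⟩, rfl⟩
  have hT : Triv S := by
    rw [← hCS]
    exact Triv.image hC (triv_real hC) (h1.mono inter_subset_left) (h2.mono inter_subset_left)
  obtain ⟨g, hg1, hg2⟩ := hSCC.class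
  exact hg2 (hT g hg1)

theorem comps_ne [T2Space M] [CompactSpace M] [Nonempty M] (hM : Surf M) :
    Γ.comps.Nonempty := by
  obtain ⟨x, hx⟩ := (Set.ne_univ_iff_exists_notMem _).1 (gset_ne Γ hM)
  obtain ⟨W, hW, -⟩ := comp_cover Γ hx
  exact ⟨W, hW⟩

end Pool.Agent.H20.PW
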