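import Pool.Agent.H20.PW.Hol

/-!
# PW-03 linear algebra

* `rank_dl`: rank-nullity for `dl Γ` (`LinearMap.finrank_range_add_finrank_ker`, `Module.finrank_fintype_fun_eq_card`/`Module.finrank_pi`, instances `Γ.fκ`, `Γ.fι`: `haveI := Γ.fκ`; `Nat.card_eq_fintype_card`); the kernel contains
  the constant function `1` (`1 + 1 = 0`), which is not `0` because `Γ.κ` is not empty (`Γ.four`: there is an edge, `Γ.s i : Γ.κ`), so its dimension is at least one
  (`Submodule.one_le_finrank_iff` or `Module.finrank_pos`).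
* `lin_main`: the composition `Z → (Γ.ι → ZMod 2) → (Γ.ι → ZMod 2) ⧸ range (dl Γ)` vanishes on `B` and is onto (`hs`), so it induces a surjection from `Z ⧸ B` (`Submodule.liftQ`), hence
  `finrank ((Γ.ι → ZMod 2) ⧸ range) ≤ finrank (Z ⧸ B)` (`LinearMap.finrank_le_finrank_of_surjective`-style; `LinearMap.range_eq_top`, `Submodule.finrank_quotient_add_finrank`), and
  `finrank ((Γ.ι → ZMod 2) ⧸ range) + finrank range = card Γ.ι`; use `rank_dl`.
* `lin_step`: if `K = ⊤` then `f` is onto: `Module.Finite.of_surjective`, `finrank W ≤ finrank V`.  Otherwise take `w₀ ∉ K`; the map `V × ZMod 2 → W`, `(v, c) ↦ f v + c • w₀` is linear and onto: `w ∈ K`: `w = f v`; `w ∉ K`: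
  `w + w₀ ∈ K`, `w + w₀ = f v`, `w = f v + w₀` (characteristic 2: `w₀ + w₀ = (1 + 1) • w₀ = 0`).  `finrank (V × ZMod 2) = finrank V + 1` (`Module.finrank_prod`, `Module.finrank_self`).
-/

namespace Pool.Agent.H20.PW

open Set Filter Topology Pool.Agent.H61.PO

theorem lin_step {V W : Type*} [AddCommGroup V] [Module (ZMod 2) V] [AddCommGroup W]
    [Module (ZMod 2) W] [Module.Finite (ZMod 2) V] (f : V →ₗ[ZMod 2] W)
    (K : Submodule (ZMod 2) W) (h1 : ∀ w ∈ K, ∃ v, f v = w)
    (h2 : ∀ w w', w ∉ K → w' ∉ K → w + w' ∈ K) :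
    Module.Finite (ZMod 2) W ∧
      Module.finrank (ZMod 2) W ≤ Module.finrank (ZMod 2) V + 1 := by
  classical
  have two : ∀ w : W, w + w = 0 := fun w => by
    have h := two_smul (ZMod 2) w
    rw [show (2 : ZMod 2) = 0 from rfl, zero_smul] at h
    exact h.symm
  by_cases hK : K = ⊤
  · have hs : Function.Surjective f := fun w => h1 w (hK ▸ Submodule.mem_top)
    have hfin : Module.Finite (ZMod 2) W := Module.Finite.of_surjective f hs
    refine ⟨hfin, ?_⟩
    have := LinearMap.finrank_le_finrank_of_surjective (f := f) hs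
    omega
  · obtain ⟨w0, hw0⟩ : ∃ w0, w0 ∉ K := by
      by_contra h
      push Not at h
      exact hK (eq_top_iff.2 fun w _ => h w)
    let F : V × ZMod 2 →ₗ[ZMod 2] W := f.coprod (LinearMap.toSpanSingleton (ZMod 2) W w0)
    have hs : Function.Surjective F := by
      intro w
      by_cases hw : w ∈ K
      · obtain ⟨v, hv⟩ := h1 w hw
        exact ⟨(v, 0), by simp [F, hv]⟩
      · obtain ⟨v, hv⟩ := h1 (w + w0) (h2 w w0 hw hw0)
        refine ⟨(v, 1), ?_⟩
        have : F (v, 1) = f v + w0 := by simp [F]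
        rw [this, hv, add_assoc, two, add_zero]
    have hfin : Module.Finite (ZMod 2) W := Module.Finite.of_surjective F hs
    refine ⟨hfin, ?_⟩
    have h3 := LinearMap.finrank_le_finrank_of_surjective (f := F) hs
    rw [Module.finrank_prod, Module.finrank_self] at h3
    exact h3

variable {M : Type*} [TopologicalSpace M] (Γ : Gr M)

theorem rank_dl : Module.finrank (ZMod 2) (LinearMap.range (dl Γ)) + 1 ≤ Nat.card Γ.κ := by
  haveI := Γ.fκ
  haveI := Γ.fι
  have h := LinearMap.finrank_range_add_finrank_ker (dl Γ)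
  rw [Module.finrank_fintype_fun_eq_card] at h
  have hi : Nonempty Γ.ι := by
    have h4 := Γ.four
    by_contra hc
    rw [not_nonempty_iff] at hc
    rw [Nat.card_of_isEmpty] at h4
    omega
  obtain ⟨i⟩ := hi
  have hk : 0 < Module.finrank (ZMod 2) (LinearMap.ker (dl Γ)) := by
    rw [Module.finrank_pos_iff]
    refine ⟨⟨⟨fun _ => 1, ?_⟩, 0, ?_⟩⟩
    · rw [LinearMap.mem_ker]
      funext j
      change (1 : ZMod 2) + 1 = 0
      rfl
    · intro h0
      have h1 := congrFun (congrArg Subtype.val h0) (Γ.s i)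
      exact one_ne_zero (α := ZMod 2) h1
  rw [Nat.card_eq_fintype_card]
  omega

theorem lin_main {Z : Type*} [AddCommGroup Z] [Module (ZMod 2) Z] (B : Submodule (ZMod 2) Z)
    (hfin : Module.Finite (ZMod 2) (Z ⧸ B)) (h : Z →ₗ[ZMod 2] (Γ.ι → ZMod 2))
    (hB : ∀ g ∈ B, h g ∈ LinearMap.range (dl Γ))
    (hs : ∀ S, ∃ g, h g + S ∈ LinearMap.range (dl Γ)) :
    Nat.card Γ.ι + 1 ≤ Nat.card Γ.κ + Module.finrank (ZMod 2) (Z ⧸ B) := by
  haveI := Γ.fκ
  haveI := Γ.fι
  haveI := hfin
  let R := LinearMap.range (dl Γ)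
  let F : (Z ⧸ B) →ₗ[ZMod 2] ((Γ.ι → ZMod 2) ⧸ R) :=
    B.liftQ (R.mkQ.comp h) (fun g hg => by
      rw [LinearMap.mem_ker, LinearMap.comp_apply]
      exact (Submodule.Quotient.mk_eq_zero R).2 (hB g hg))
  have hF : Function.Surjective F := by
    intro q
    obtain ⟨S, rfl⟩ := Submodule.Quotient.mk_surjective R q
    obtain ⟨g, hg⟩ := hs S
    refine ⟨B.mkQ g, ?_⟩
    have e1 : F (B.mkQ g) = R.mkQ (h g) := by
      simp [F]
    rw [e1]
    change Submodule.Quotient.mk (h g) = Submodule.Quotient.mk S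
    rw [Submodule.Quotient.eq]
    have e2 : h g - S = h g + S := by
      funext i
      simp only [Pi.sub_apply, Pi.add_apply]
      exact CharTwo.sub_eq_add _ _
    rw [e2]
    exact hg
  have h3 := LinearMap.finrank_le_finrank_of_surjective (f := F) hF
  have h4 := Submodule.finrank_quotient_add_finrank R
  rw [Module.finrank_fintype_fun_eq_card] at h4
  have h5 := rank_dl Γ
  change Module.finrank (ZMod 2) R + 1 ≤ _ at h5
  rw [Nat.card_eq_fintype_card (α := Γ.ι)]
  omega

end Pool.Agent.H20.PW
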