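import Pool.Agent.H20.PW.Dsc
import Pool.Agent.H61.PO.Ext

/-!
# PW-05 extension of a local cocycle from the graph to the complement of one disc in every component

`extend_aux`: induction on the finite set `J ⊆ Γ.comps` (`Finset.induction_on`, with `J : Finset (Set M)`; `classical`): statement `P J`: there is `g'` with
`Coc (Q J) g'` and `Cob Γ.set (g + g')`, where `Q J = {x | (∀ W ∈ Γ.comps, W ∉ J → x ∉ W) ∧ ∀ W ∈ J, x ∉ e W '' ball 0 1}`.
`J = ∅`: `Q ∅ ⊆ Γ.set` (`comp_cover`), `g' = g` (`g + g = 0`: `add_self`, `Cob.zero`).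
Step: `J' = insert W₀ J`, `W₀ ∉ J`.  `Z = {x | (∀ W ∈ Γ.comps, W ∉ J' → x ∉ W) ∧ ∀ W ∈ J, x ∉ e W '' ball 0 1}` is closed (the `W` are open, `comp_op`: the complement of `⋃ W ∈ Γ.comps \ J', W`, a union of open
sets; `e W '' ball 0 1` is open), so compact.  `W₀ ⊆ Z` (`comp_disj`: for `W ≠ W₀` in `Γ.comps` no point of `W₀` is in `W`, and `e W '' ball 0 1 ⊆ W`).  `Z \ W₀ ⊆ Q J`.  `Q J' = Z \ e W₀ '' ball 0 1`.
`ext_main` with `U = W₀` and `g'|_{Z \ W₀}` (`Coc.mono`): `g''` with `Coc (Z \ e W₀ '' ball 0 1) g''`, `Cob (Z \ W₀) (g' + g'')`; `Γ.set ⊆ Z \ W₀` (`comp_sub`, and `e W '' ball 0 1 ⊆ W`); `Cob.mono`, `Cob.trans`.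
`extend`: `J = hfin.toFinset`: `Q J = (⋃ W ∈ Γ.comps, e W '' ball 0 1)ᶜ`.
-/

namespace Pool.Agent.H20.PW

open Set Filter Topology Metric Pool.Agent.H61.PO

variable {M : Type*} [MetricSpace M] [CompactSpace M] (Γ : Gr M)

private def extQ (e : Set M → ℂ → M) (J : Finset (Set M)) : Set M :=
  {x | (∀ W ∈ Γ.comps, W ∉ J → x ∉ W) ∧ ∀ W ∈ J, x ∉ e W '' ball 0 1}

private theorem extend_aux (hM : Surf M) {e : Set M → ℂ → M}
    (he : ∀ W ∈ Γ.comps, IsOpenEmbedding (e W) ∧ e W '' closedBall 0 1 ⊆ W)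
    {g : M → M → ZMod 2} (hg : Coc Γ.set g) (J : Finset (Set M)) :
    (∀ W ∈ J, W ∈ Γ.comps) →
    ∃ g' : M → M → ZMod 2, Coc (extQ Γ e J) g' ∧ Cob Γ.set (g + g') := by
  classical
  induction J using Finset.induction_on with
  | empty =>
    intro _
    refine ⟨g, hg.mono ?_, ?_⟩
    · rintro x ⟨hx, -⟩
      by_contra hxs
      obtain ⟨W, hW, hxW⟩ := comp_cover Γ hxs
      exact hx W hW (Finset.notMem_empty _) hxW
    · rw [add_self]
      exact Cob.zero _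
  | insert W₀ J hW₀J ih =>
    intro hJ
    have hJ1 : ∀ W ∈ J, W ∈ Γ.comps := fun W hW => hJ W (Finset.mem_insert_of_mem hW)
    have hW₀ : W₀ ∈ Γ.comps := hJ W₀ (Finset.mem_insert_self _ _)
    obtain ⟨g1, hg1, hc1⟩ := ih hJ1
    have hball : ∀ W ∈ Γ.comps, e W '' ball 0 1 ⊆ W := fun W hW =>
      (image_mono ball_subset_closedBall).trans (he W hW).2
    set Z : Set M := {x | (∀ W ∈ Γ.comps, W ∉ insert W₀ J → x ∉ W) ∧
      ∀ W ∈ J, x ∉ e W '' ball 0 1} with hZ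
    have hZc : IsClosed Z := by
      have h1 : Z = (⋃ W ∈ {W | W ∈ Γ.comps ∧ W ∉ insert W₀ J}, W)ᶜ ∩
          (⋃ W ∈ J, e W '' ball 0 1)ᶜ := by
        ext x
        simp only [hZ, mem_ofPred_eq, mem_inter_iff, mem_compl_iff, mem_iUnion, not_exists]
        constructor
        · rintro ⟨h1, h2⟩
          exact ⟨fun W hW => h1 W hW.1 hW.2, fun W hW => h2 W hW⟩
        · rintro ⟨h1, h2⟩
          exact ⟨fun W hW hW' => h1 W ⟨hW, hW'⟩, fun W hW => h2 W hW⟩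
      rw [h1]
      refine IsClosed.inter ?_ ?_
      · rw [isClosed_compl_iff]
        exact isOpen_biUnion fun W hW => comp_op Γ hM hW.1
      · rw [isClosed_compl_iff]
        exact isOpen_biUnion fun W hW => (he W (hJ1 W hW)).1.isOpenMap _ isOpen_ball
    have hWZ : W₀ ⊆ Z := by
      intro x hx
      refine ⟨fun W hW hWn hxW => ?_, fun W hW hxW => ?_⟩
      · have hne : W ≠ W₀ := fun h => hWn (h ▸ Finset.mem_insert_self _ _)
        exact (disjoint_left.mp (comp_disj Γ hW hW₀ hne) hxW) hx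
      · have hne : W ≠ W₀ := fun h => hW₀J (h ▸ hW)
        exact (disjoint_left.mp (comp_disj Γ (hJ1 W hW) hW₀ hne)
          (hball W (hJ1 W hW) hxW)) hx
    have hsub : Z \ W₀ ⊆ extQ Γ e J := by
      rintro x ⟨⟨h1, h2⟩, h3⟩
      refine ⟨fun W hW hWJ hxW => ?_, h2⟩
      by_cases hWW : W = W₀
      · exact h3 (hWW ▸ hxW)
      · exact h1 W hW (fun h => (Finset.mem_insert.mp h).elim hWW hWJ) hxW
    obtain ⟨g2, hg2, hc2⟩ := ext_main hM hZc.isCompact (comp_op Γ hM hW₀) hWZ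
      (comp_preconn Γ hW₀) (he W₀ hW₀).1 (he W₀ hW₀).2 (hg1.mono hsub)
    refine ⟨g2, hg2.mono ?_, hc1.trans (hc2.mono ?_)⟩
    · rintro x ⟨h1, h2⟩
      exact ⟨⟨h1, fun W hW => h2 W (Finset.mem_insert_of_mem hW)⟩,
        h2 W₀ (Finset.mem_insert_self _ _)⟩
    · intro x hx
      refine ⟨⟨fun W hW _ hxW => comp_sub Γ hW hxW hx, fun W hW hxW => ?_⟩,
        fun hxW => comp_sub Γ hW₀ hxW hx⟩
      exact comp_sub Γ (hJ1 W hW) (hball W (hJ1 W hW) hxW) hx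

theorem extend (hM : Surf M) (hfin : Γ.comps.Finite) {e : Set M → ℂ → M}
    (he : ∀ W ∈ Γ.comps, IsOpenEmbedding (e W) ∧ e W '' closedBall 0 1 ⊆ W)
    {g : M → M → ZMod 2} (hg : Coc Γ.set g) :
    ∃ g' : M → M → ZMod 2, Coc (⋃ W ∈ Γ.comps, e W '' ball 0 1)ᶜ g' ∧ Cob Γ.set (g + g') := by
  obtain ⟨g', hg', hc⟩ := extend_aux Γ hM he hg hfin.toFinset
    (fun W hW => hfin.mem_toFinset.mp hW)
  refine ⟨g', hg'.mono ?_, hc⟩
  intro x hx
  refine ⟨fun W hW hWn _ => hWn (hfin.mem_toFinset.mpr hW), fun W hW hxW => hx ?_⟩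
  exact mem_biUnion (hfin.mem_toFinset.mp hW) hxW

end Pool.Agent.H20.PW
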