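import Pool.Agent.H20.PW.Ont
import Pool.Agent.H20.PW.Lin
import Pool.Agent.H20.PW.Xtn
import Pool.Agent.H20.PW.All

/-!
# PW-08 the Euler inequality

`E + 2 ≤ V + b + F`.  Choose `e W` for `W ∈ Γ.comps` by `disc_in` (`comp_op`, `comp_ne`; `classical`, `choose`, or a function defined by cases on `W ∈ Γ.comps`).  `N = (⋃ W ∈ Γ.comps, e W '' ball 0 1)ᶜ ⊇ Γ.set` (`comp_sub`).
Fix `a ∈ Γ.comps` (`comps_ne`) and `J = (hfin.toFinset).erase a`, `J.card + 1 = Γ.comps.ncard` (`Set.ncard_eq_toFinset_card`).  `cut_all` (the closed discs are in the disjoint sets `W`: `comp_disj`) gives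
`Module.Finite (Hc N)` and `h1 N ≤ h1 (e a '' ball 0 1)ᶜ + J.card` (the union over `a` and `J` is the union over `Γ.comps`), and `h1 (e a '' ball 0 1)ᶜ = h1 (e₀ '' ball 0 1)ᶜ` by `hind`.
`hol_exists` for `A = N` and for `A = Γ.set`: `h`, `h₀`.  `lin_main` with `Z = Zc N`, `B = (Bc N).comap (Zc N).subtype` (`hB`: `hol_cob`, `Cob.mono`); `hs`: for `S` take `g₀` with `h₀ g₀ = S` (`hol_onto`), `extend` gives
`g' ∈ Zc N` with `Cob Γ.set (g₀ + g')`, and `hol_congr` gives `h₀ g₀ + h g' ∈ range`, i.e. `h g' + S ∈ range`.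
-/

namespace Pool.Agent.H20.PW

open Set Filter Topology Metric Pool.Agent.H61.PO

variable {M : Type*} [MetricSpace M] [CompactSpace M] [Nonempty M] (Γ : Gr M)

theorem euler_ineq (hM : Surf M) (hfin : Γ.comps.Finite)
    (hind : ∀ e e' : ℂ → M, IsOpenEmbedding e → IsOpenEmbedding e' →
      h1 (e '' ball 0 1)ᶜ = h1 (e' '' ball 0 1)ᶜ) {e₀ : ℂ → M} (he₀ : IsOpenEmbedding e₀) :
    Nat.card Γ.ι + 2 ≤ Nat.card Γ.κ + h1 ((e₀ '' ball 0 1)ᶜ) + Γ.comps.ncard := by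
  classical
  have hex : ∀ W : Set M, ∃ e : ℂ → M, W ∈ Γ.comps →
      (IsOpenEmbedding e ∧ e '' closedBall 0 1 ⊆ W) := by
    intro W
    by_cases hW : W ∈ Γ.comps
    · obtain ⟨e, he⟩ := disc_in hM (comp_op Γ hM hW) (comp_ne Γ hW)
      exact ⟨e, fun _ => he⟩
    · exact ⟨e₀, fun h => absurd h hW⟩
  choose e he using hex
  have hbs : ∀ W ∈ Γ.comps, e W '' ball 0 1 ⊆ W := fun W hW =>
    (image_mono ball_subset_closedBall).trans (he W hW).2
  have hN : Γ.set ⊆ (⋃ W ∈ Γ.comps, e W '' ball 0 1)ᶜ := by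
    intro x hx hmem
    obtain ⟨W, hW, hxW⟩ := mem_iUnion₂.1 hmem
    exact comp_sub Γ hW (hbs W hW hxW) hx
  obtain ⟨a, ha⟩ := comps_ne Γ hM
  have haF : a ∈ hfin.toFinset := hfin.mem_toFinset.2 ha
  have hJcard : (hfin.toFinset.erase a).card + 1 = Γ.comps.ncard := by
    rw [Set.ncard_eq_toFinset_card Γ.comps hfin]
    exact Finset.card_erase_add_one haF
  have hmem : ∀ i, (i = a ∨ i ∈ hfin.toFinset.erase a) → i ∈ Γ.comps := by
    rintro i (rfl | hi)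
    · exact ha
    · exact hfin.mem_toFinset.1 (Finset.mem_of_mem_erase hi)
  obtain ⟨hfN, hle⟩ := cut_all hM (e := e) a (hfin.toFinset.erase a) (Finset.notMem_erase _ _)
    (fun i hi => (he i (hmem i hi)).1)
    (fun i j hi hj hij => (comp_disj Γ (hmem i hi) (hmem j hj) hij).mono
      (he i (hmem i hi)).2 (he j (hmem j hj)).2)
  have hEq : (e a '' ball 0 1 ∪ ⋃ i ∈ hfin.toFinset.erase a, e i '' ball 0 1)ᶜ
      = (⋃ W ∈ Γ.comps, e W '' ball 0 1)ᶜ := by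
    congr 1
    ext x
    constructor
    · rintro (hx | hx)
      · exact mem_iUnion₂.2 ⟨a, ha, hx⟩
      · obtain ⟨i, hi, hxi⟩ := mem_iUnion₂.1 hx
        exact mem_iUnion₂.2 ⟨i, hmem i (Or.inr hi), hxi⟩
    · intro hx
      obtain ⟨W, hW, hxW⟩ := mem_iUnion₂.1 hx
      by_cases h : W = a
      · left
        rw [← h]
        exact hxW
      · right
        exact mem_iUnion₂.2 ⟨W, Finset.mem_erase.2 ⟨h, hfin.mem_toFinset.2 hW⟩, hxW⟩
  rw [hEq] at hfN hle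
  rw [hind (e a) e₀ (he a ha).1 he₀] at hle
  obtain ⟨h, hh⟩ := hol_exists Γ hN
  obtain ⟨h₀, hh₀⟩ := hol_exists Γ (Subset.refl Γ.set)
  have key := lin_main Γ ((Bc (⋃ W ∈ Γ.comps, e W '' ball 0 1)ᶜ).comap
      (Zc (⋃ W ∈ Γ.comps, e W '' ball 0 1)ᶜ).subtype) hfN h
    (fun g hg => hol_cob Γ hh (Cob.mono hg hN))
    (fun S => by
      obtain ⟨g₀, hg₀⟩ := hol_onto Γ hh₀ S
      obtain ⟨g', hg', hc⟩ := extend Γ hM hfin (e := e) he g₀.2
      refine ⟨⟨g', hg'⟩, ?_⟩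
      have := hol_congr Γ (Subset.refl Γ.set) hh₀ hh (g := g₀) (g' := ⟨g', hg'⟩) hc
      rw [hg₀, add_comm] at this
      exact this)
  change Nat.card Γ.ι + 1 ≤ Nat.card Γ.κ + h1 (⋃ W ∈ Γ.comps, e W '' ball 0 1)ᶜ at key
  omega

end Pool.Agent.H20.PW
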