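import Pool.Agent.H61.PQ.Defs
import Pool.Agent.H61.PO.Triv

/-!
# PW-01 the holonomy of local cocycles along the edges of a graph

`dl Γ`: coboundary operator `φ ↦ (φ (s i) + φ (t i))_i` of the graph.
`IsHol Γ A h`: `h` is the holonomy map on `Zc A`.

* `gset_closed`: finite union (`Γ.fι`) of the arcs `Γ.σ i` (`IsArc.compact`).  `sub_gset`: trivial.
* `hol_exists` (as `hol_exists` in `Pool/Agent/H40/PZ/Hol.lean`, you may copy): for `g ∈ Zc A` choose for every edge `i` a primitive `P g i` on `Γ.σ i ⊆ A` (`IsArc.triv`, `Coc.mono`), put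
  `h g i = P g i (pt (s i)) + P g i (pt (t i))`.  Two primitives `s, s'` on `Γ.σ i` differ by a constant `c` (`LCob.const`, `IsArc.preconn`), both ends are in `Γ.σ i` (`IsArc.mem`),
  so `s p + s q = s' p + s' q` in characteristic 2.  Additivity: `LCob.add`; scalars: `r • s` is a primitive of `r • g`.
* `hol_cob`: a primitive `s` of `g` on `Γ.set` is one on every `Γ.σ i` (`LCob.mono`); `h g = dl Γ (fun k => s (pt k))`.
* `hol_congr`: `Cob Γ.set (g + g')`: `h' g'` and `h g` (holonomy maps on `Zc A`, `Zc A'`): let `r` be a primitive of `g + g'` on `Γ.set`, `s` one of `g` on `Γ.σ i`; then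
  `r + s` is one of `(g + g') + g = g'` (characteristic 2: `g + g' + g = g'` as functions) on `Γ.σ i`, so `h' g' i = h g i + dl Γ (r ∘ pt) i`.
-/

namespace Pool.Agent.H20.PW

open Set Filter Topology Pool.Agent.H61.PO

variable {M : Type*} [TopologicalSpace M] (Γ : Gr M)

/-- coboundary operator of the graph -/
def dl : (Γ.κ → ZMod 2) →ₗ[ZMod 2] (Γ.ι → ZMod 2) where
  toFun φ := fun i => φ (Γ.s i) + φ (Γ.t i)
  map_add' := by
    intro φ ψ
    funext i
    simp only [Pi.add_apply]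
    ring
  map_smul' := by
    intro r φ
    funext i
    simp only [Pi.smul_apply, smul_eq_mul, RingHom.id_apply]
    ring

/-- `h` is the holonomy map on the local cocycles on `A` -/
def IsHol (A : Set M) (h : Zc A →ₗ[ZMod 2] (Γ.ι → ZMod 2)) : Prop :=
  ∀ (g : Zc A) (i : Γ.ι) (s : M → ZMod 2), LCob (Γ.σ i) g.1 s →
    h g i = s (Γ.pt (Γ.s i)) + s (Γ.pt (Γ.t i))

theorem sub_gset (i : Γ.ι) : Γ.σ i ⊆ Γ.set := Set.subset_iUnion Γ.σ i

private theorem PWHol_key (i : Γ.ι) {g : M → M → ZMod 2} {s s' : M → ZMod 2}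
    (h : LCob (Γ.σ i) g s) (h' : LCob (Γ.σ i) g s') :
    s (Γ.pt (Γ.s i)) + s (Γ.pt (Γ.t i)) = s' (Γ.pt (Γ.s i)) + s' (Γ.pt (Γ.t i)) := by
  obtain ⟨c, hc⟩ := h.const h' (Γ.arc i).preconn
  obtain ⟨hp, hq, -⟩ := (Γ.arc i).mem
  have h1 := hc _ hp
  have h2 := hc _ hq
  have h3 : (2 : ZMod 2) = 0 := by decide
  linear_combination h1 + h2 + (c - s' (Γ.pt (Γ.s i)) - s' (Γ.pt (Γ.t i))) * h3

private theorem PWHol_smul {A : Set M} {g : M → M → ZMod 2} {s : M → ZMod 2} (r : ZMod 2)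
    (h : LCob A g s) : LCob A (r • g) (r • s) := by
  intro x hx
  obtain ⟨U, hU, h1⟩ := h x hx
  refine ⟨U, hU, fun a ha b hb => ?_⟩
  show r * g a b = r * s a + r * s b
  rw [h1 a ha b hb]
  ring

theorem hol_cob {A : Set M} {h : Zc A →ₗ[ZMod 2] (Γ.ι → ZMod 2)} (hh : IsHol Γ A h) {g : Zc A}
    (hg : Cob Γ.set g.1) : h g ∈ LinearMap.range (dl Γ) := by
  obtain ⟨s, hs⟩ := hg
  refine ⟨fun k => s (Γ.pt k), ?_⟩
  funext i
  exact (hh g i s (hs.mono (sub_gset Γ i))).symm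

variable [T2Space M]

theorem gset_closed : IsClosed Γ.set := by
  have := Γ.fι
  exact isClosed_iUnion_of_finite fun i => (Γ.arc i).compact.isClosed

theorem hol_exists {A : Set M} (hA : Γ.set ⊆ A) :
    ∃ h : Zc A →ₗ[ZMod 2] (Γ.ι → ZMod 2), IsHol Γ A h := by
  have hprim : ∀ (g : Zc A) (i : Γ.ι), ∃ s, LCob (Γ.σ i) g.1 s := fun g i =>
    (Γ.arc i).triv g.1 (Coc.mono g.2 ((sub_gset Γ i).trans hA))
  choose P hP using hprim
  refine ⟨{ toFun := fun g => fun i => P g i (Γ.pt (Γ.s i)) + P g i (Γ.pt (Γ.t i))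
            map_add' := ?_
            map_smul' := ?_ }, ?_⟩
  · intro g g'
    funext i
    show P (g + g') i (Γ.pt (Γ.s i)) + P (g + g') i (Γ.pt (Γ.t i)) =
      (P g i (Γ.pt (Γ.s i)) + P g i (Γ.pt (Γ.t i))) +
        (P g' i (Γ.pt (Γ.s i)) + P g' i (Γ.pt (Γ.t i)))
    have h1 := PWHol_key Γ i (hP (g + g') i) ((hP g i).add (hP g' i))
    rw [h1]
    simp only [Pi.add_apply]
    ring
  · intro r g
    funext i
    show P (r • g) i (Γ.pt (Γ.s i)) + P (r • g) i (Γ.pt (Γ.t i)) =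
      r * (P g i (Γ.pt (Γ.s i)) + P g i (Γ.pt (Γ.t i)))
    have h1 := PWHol_key Γ i (hP (r • g) i) (PWHol_smul r (hP g i))
    rw [h1]
    simp only [Pi.smul_apply, smul_eq_mul]
    ring
  · intro g i s hs
    exact PWHol_key Γ i (hP g i) hs

theorem hol_congr {A A' : Set M} (hA : Γ.set ⊆ A) {h : Zc A →ₗ[ZMod 2] (Γ.ι → ZMod 2)}
    {h' : Zc A' →ₗ[ZMod 2] (Γ.ι → ZMod 2)} (hh : IsHol Γ A h) (hh' : IsHol Γ A' h') {g : Zc A}
    {g' : Zc A'} (H : Cob Γ.set (g.1 + g'.1)) : h g + h' g' ∈ LinearMap.range (dl Γ) := by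
  obtain ⟨r, hr⟩ := H
  refine ⟨fun k => r (Γ.pt k), ?_⟩
  funext i
  obtain ⟨s, hs⟩ := (Γ.arc i).triv g.1 (Coc.mono g.2 ((sub_gset Γ i).trans hA))
  have h2 : (2 : ZMod 2) = 0 := by decide
  have h1 : LCob (Γ.σ i) g'.1 (r + s) := by
    have h3 := (hr.mono (sub_gset Γ i)).add hs
    have h4 : g.1 + g'.1 + g.1 = g'.1 := by
      funext a b
      show g.1 a b + g'.1 a b + g.1 a b = g'.1 a b
      linear_combination (g.1 a b) * h2
    rwa [h4] at h3
  have e1 := hh g i s hs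
  have e2 := hh' g' i (r + s) h1
  show r (Γ.pt (Γ.s i)) + r (Γ.pt (Γ.t i)) = h g i + h' g' i
  rw [e1, e2]
  simp only [Pi.add_apply]
  linear_combination -(s (Γ.pt (Γ.s i)) + s (Γ.pt (Γ.t i))) * h2

end Pool.Agent.H20.PW
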