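import Pool.Agent.H20.PW.Hol
import Pool.Agent.H20.PW.Cls

/-!
# PW-02 the holonomy map is onto

* `edge_class`: `A = (⋃ j ≠ i, Γ.σ j) ∪ {pt (s i), pt (t i)}` is closed (finite union of compact arcs, `Γ.fι`), `A ∩ Γ.σ i = {pt (s i), pt (t i)}`: a point of `Γ.σ j ∩ Γ.σ i`, `j ≠ i`, is some
  `pt k` (`Γ.disj`) and `k = s i` or `k = t i` (`Γ.vert`); conversely `IsArc.mem`.  `A ∪ Γ.σ i = Γ.set` (the two points are in `Γ.σ i`).  `arc_class` (file PW/Cls.lean), `LCob.mono`.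
* `hol_onto`: take `g i` from `edge_class`: `h (g i) = Pi.single i 1` by `IsHol` (for `j ≠ i` the primitive `0`, for `j = i` the primitive `t`).  For `S : Γ.ι → ZMod 2`:
  `h (∑ i, S i • g i) = ∑ i, S i • Pi.single i 1 = S` (`pi_eq_sum_univ`, `Fintype Γ.ι` is `Γ.fι`; `classical` for `DecidableEq`).
-/

namespace Pool.Agent.H20.PW

open Set Filter Topology Pool.Agent.H61.PO

variable {M : Type*} [TopologicalSpace M] [T2Space M] (Γ : Gr M)

theorem edge_class (i : Γ.ι) : ∃ (g : M → M → ZMod 2) (t : M → ZMod 2), Coc Γ.set g ∧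
    (∀ j, j ≠ i → LCob (Γ.σ j) g (fun _ => 0)) ∧ LCob (Γ.σ i) g t ∧ t (Γ.pt (Γ.s i)) = 0 ∧
      t (Γ.pt (Γ.t i)) = 1 := by
  have := Γ.fι
  have hends : ({Γ.pt (Γ.s i), Γ.pt (Γ.t i)} : Set M) ⊆ Γ.σ i := by
    rintro x (rfl | hx)
    · exact (Γ.arc i).mem.1
    · rw [mem_singleton_iff] at hx
      subst hx
      exact (Γ.arc i).mem.2.1
  have hA : IsClosed ((⋃ j ∈ {j : Γ.ι | j ≠ i}, Γ.σ j) ∪ {Γ.pt (Γ.s i), Γ.pt (Γ.t i)}) := by
    refine IsClosed.union ?_ (Set.toFinite _).isClosed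
    exact (Set.toFinite _).isClosed_biUnion (fun j _ => (Γ.arc j).compact.isClosed)
  have hAσ : ((⋃ j ∈ {j : Γ.ι | j ≠ i}, Γ.σ j) ∪ {Γ.pt (Γ.s i), Γ.pt (Γ.t i)}) ∩ Γ.σ i
      = {Γ.pt (Γ.s i), Γ.pt (Γ.t i)} := by
    apply Subset.antisymm
    · rintro x ⟨hx | hx, hxi⟩
      · obtain ⟨j, hj, hxj⟩ := mem_iUnion₂.1 hx
        obtain ⟨k, rfl⟩ := Γ.disj j i hj ⟨hxj, hxi⟩
        rcases Γ.vert i k hxi with rfl | rfl
        · exact Or.inl rfl
        · exact Or.inr rfl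
      · exact hx
    · exact fun x hx => ⟨Or.inr hx, hends hx⟩
  obtain ⟨g, t, h1, h2, h3, h4, h5⟩ := arc_class hA (Γ.arc i) hAσ
  refine ⟨g, t, h1.mono ?_, fun j hj => h2.mono ?_, h3, h4, h5⟩
  · intro x hx
    obtain ⟨j, hxj⟩ := mem_iUnion.1 hx
    by_cases hj : j = i
    · subst hj
      exact Or.inr hxj
    · exact Or.inl (Or.inl (mem_iUnion₂.2 ⟨j, hj, hxj⟩))
  · exact fun x hx => Or.inl (mem_iUnion₂.2 ⟨j, hj, hx⟩)

theorem hol_onto {h : Zc Γ.set →ₗ[ZMod 2] (Γ.ι → ZMod 2)} (hh : IsHol Γ Γ.set h) :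
    Function.Surjective h := by
  classical
  have := Γ.fι
  choose g t h1 h2 h3 h4 h5 using edge_class Γ
  have key : ∀ i, h ⟨g i, h1 i⟩ = Pi.single i 1 := by
    intro i
    funext j
    by_cases hj : j = i
    · subst hj
      rw [hh ⟨g j, h1 j⟩ j (t j) (h3 j), h4, h5, Pi.single_eq_same, zero_add]
    · rw [hh ⟨g i, h1 i⟩ j (fun _ => 0) (h2 i j hj), Pi.single_eq_of_ne hj, add_zero]
  intro S
  refine ⟨∑ i, S i • (⟨g i, h1 i⟩ : Zc Γ.set), ?_⟩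
  rw [map_sum]
  simp only [map_smul, key]
  funext j
  rw [Finset.sum_apply, Finset.sum_eq_single j]
  · simp
  · intro b _ hb
    simp [Pi.single_eq_of_ne hb.symm]
  · intro hj
    exact absurd (Finset.mem_univ j) hj

end Pool.Agent.H20.PW
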