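import Pool.Agent.H20.PW.Lin
import Pool.Agent.H61.PO.Glue
import Pool.Agent.H61.PO.Circ

/-!
# PW-06 removing an open disc raises the dimension by at most one

`cut_one`: `A` closed, `e '' closedBall 0 1 ⊆ A`.  `A' = A \ e '' ball 0 1` (closed), `D = e '' closedBall 0 1` (compact, so closed), `S = e '' sphere 0 1`: `A' ∪ D = A`, `A' ∩ D = S` (`e` injective), `S` is a simple
closed curve (`scc_sphere one_pos`, `SCC.image`).
Apply `lin_step` with `V = Hc A`, `W = Hc A'`, `f` the map induced by the inclusion `Zc A → Zc A'` (`Coc.mono`; `Submodule.mapQ` or `liftQ`), `K` = image in `Hc A'` of the submodule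
`{g : Zc A' | Cob S g}` (`(Bc S).comap (Zc A').subtype`, `Submodule.map (mkQ _)`).
h1: `w = [g]`, `g ∈ Zc A'`, `Cob S g`: `glue` (file PO/Glue.lean) for `A', D`, `g1 = g`, `g2 = 0`: `g'` with `Coc A g'`, `Cob A' (g' + g)`; so `f [g'] = [g' restricted] = [g]` (difference: `g' - g = g' + g` in
characteristic 2).
h2: `w = [g] ∉ K`, `w' = [g'] ∉ K`: `¬ Cob S g`, `¬ Cob S g'`, so `Cob S (g + g')` by `SCC.two` (file PO/Circ.lean).
`cut_finite`, `cut_le` together in one statement.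
-/

namespace Pool.Agent.H20.PW

open Set Filter Topology Metric Pool.Agent.H61.PO

variable {M : Type*} [MetricSpace M]

omit [MetricSpace M] in
private theorem Stp_sub (g g' : M → M → ZMod 2) : g - g' = g + g' := by
  funext a b
  exact CharTwo.sub_eq_add (g a b) (g' a b)

theorem cut_one {A : Set M} (hA : IsClosed A) {e : ℂ → M} (he : IsOpenEmbedding e)
    (hD : e '' closedBall 0 1 ⊆ A) (hfin : Module.Finite (ZMod 2) (Hc A)) :
    Module.Finite (ZMod 2) (Hc (A \ e '' ball 0 1)) ∧ h1 (A \ e '' ball 0 1) ≤ h1 A + 1 := by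
  have hopen : IsOpen (e '' ball (0:ℂ) 1) := he.isOpenMap _ isOpen_ball
  have hA' : IsClosed (A \ e '' ball (0:ℂ) 1) := by
    rw [Set.sdiff_eq]
    exact hA.inter hopen.isClosed_compl
  have hDc : IsClosed (e '' closedBall (0:ℂ) 1) :=
    ((isCompact_closedBall (0:ℂ) 1).image he.continuous).isClosed
  have hun : (A \ e '' ball (0:ℂ) 1) ∪ e '' closedBall (0:ℂ) 1 = A := by
    apply Set.Subset.antisymm
    · exact union_subset sdiff_subset hD
    · intro x hx
      by_cases hxb : x ∈ e '' ball (0:ℂ) 1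
      · exact Or.inr (image_mono ball_subset_closedBall hxb)
      · exact Or.inl ⟨hx, hxb⟩
  have hin : (A \ e '' ball (0:ℂ) 1) ∩ e '' closedBall (0:ℂ) 1 = e '' sphere (0:ℂ) 1 := by
    apply Set.Subset.antisymm
    · rintro x ⟨⟨_, hx2⟩, ⟨z, hz, rfl⟩⟩
      refine ⟨z, ?_, rfl⟩
      have h3 : z ∉ ball (0:ℂ) 1 := fun h => hx2 ⟨z, h, rfl⟩
      rw [mem_ball, not_lt] at h3
      rw [mem_closedBall] at hz
      exact mem_sphere.2 (le_antisymm hz h3)
    · rintro x ⟨z, hz, rfl⟩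
      have hz1 : z ∈ closedBall (0:ℂ) 1 := sphere_subset_closedBall hz
      refine ⟨⟨hD ⟨z, hz1, rfl⟩, ?_⟩, ⟨z, hz1, rfl⟩⟩
      rintro ⟨y, hy, hyz⟩
      have := he.injective hyz
      subst this
      rw [mem_ball] at hy
      rw [mem_sphere] at hz
      exact absurd hz hy.ne
  have hSA : e '' sphere (0:ℂ) 1 ⊆ A \ e '' ball (0:ℂ) 1 := by
    rw [← hin]
    exact inter_subset_left
  have hscc : SCC (e '' sphere (0:ℂ) 1) :=
    (scc_sphere one_pos).image he.continuous.continuousOn he.injective.injOn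
  have hle : Zc A ≤ Zc (A \ e '' ball (0:ℂ) 1) := fun g hg => Coc.mono hg sdiff_subset
  let f : Hc A →ₗ[ZMod 2] Hc (A \ e '' ball (0:ℂ) 1) :=
    Submodule.mapQ _ _ (Submodule.inclusion hle) (by
      intro g hg
      exact Cob.mono hg sdiff_subset)
  let K : Submodule (ZMod 2) (Hc (A \ e '' ball (0:ℂ) 1)) :=
    Submodule.map (Submodule.mkQ _) ((Bc (e '' sphere (0:ℂ) 1)).comap
      (Zc (A \ e '' ball (0:ℂ) 1)).subtype)
  refine lin_step f K ?_ ?_
  · rintro w ⟨g, hg, rfl⟩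
    have hgS : Cob (e '' sphere (0:ℂ) 1) g.1 := hg
    have h0 : g.1 + (fun _ _ => 0 : M → M → ZMod 2) = g.1 := by
      funext a b
      exact add_zero _
    obtain ⟨g', k1, k2, -⟩ := glue hA' hDc g.2 (Coc.zero _)
      (by rw [hin, h0]; exact hgS)
    rw [hun] at k1
    refine ⟨Submodule.mkQ _ ⟨g', k1⟩, ?_⟩
    change Submodule.mkQ _ (Submodule.inclusion hle ⟨g', k1⟩) = Submodule.mkQ _ g
    rw [Submodule.mkQ_apply, Submodule.mkQ_apply, Submodule.Quotient.eq]
    change Cob _ (g' - g.1)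
    rw [Stp_sub]
    exact k2
  · intro w w' hw hw'
    obtain ⟨g, rfl⟩ := Submodule.mkQ_surjective _ w
    obtain ⟨g', rfl⟩ := Submodule.mkQ_surjective _ w'
    have k1 : ¬ Cob (e '' sphere (0:ℂ) 1) g.1 := fun h => hw ⟨g, h, rfl⟩
    have k2 : ¬ Cob (e '' sphere (0:ℂ) 1) g'.1 := fun h => hw' ⟨g', h, rfl⟩
    have k3 : Cob (e '' sphere (0:ℂ) 1) (g.1 + g'.1) :=
      hscc.two (Coc.mono g.2 hSA) (Coc.mono g'.2 hSA) k1 k2
    exact ⟨g + g', k3, map_add _ _ _⟩

end Pool.Agent.H20.PW
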